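import Pool.Agent.L0h11.FP.Stm

set_option autoImplicit false

namespace Pool.Agent.L0h11.FP

open Polynomial Finset

theorem spc (hSPR : St_SPR) (hRES : St_RES) (hSUP : St_SUP) (hCRD : St_CRD) : St_SPC := by
  intro k _ _ e r m D he
  induction m generalizing D with
  | zero =>
    intro _ f hf _
    refine ⟨f, ?_, ?_⟩
    · simpa using hf
    · rw [pow_zero, one_mul]
  | succ m ih =>
    intro h1 f hf h
    have h0 := h 0 (Nat.succ_pos m)
    have h2 : (taylor (X ^ e) f).coeff 0 = f.eval (X ^ e) := by
      rw [taylor_coeff_zero]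
    rw [h2] at h0
    have h3 : (f.eval (X ^ e)).support.card ≤ r * (m + 1 - 0) := by
      refine (card_le_card (hSUP k e D he f hf)).trans ((hCRD.1 e D).trans ?_)
      have := h1 0 (Nat.succ_pos m)
      simpa using this
    have h4 := hSPR k _ _ h0 h3
    obtain ⟨q, hq, rfl⟩ := hRES k e D he f hf h4
    obtain ⟨q', hq', rfl⟩ := ih (D - e) (fun i hi => by
      have := h1 (i + 1) (by omega)
      rw [show D - (i + 1) * e = D - e - i * e by rw [Nat.sub_sub]; ring_nf] at this
      rw [show m + 1 - (i + 1) = m - i by omega] at this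
      exact this) q hq (fun j hj => by
        have h5 := h (j + 1) (by omega)
        rw [show m + 1 - (j + 1) = m - j by omega, taylor_mul, map_sub, taylor_X, taylor_C,
          add_sub_cancel_right, coeff_X_mul] at h5
        exact h5)
    refine ⟨q', ?_, ?_⟩
    · rw [show D - (m + 1) * e = D - e - m * e by rw [Nat.sub_sub]; ring_nf]
      exact hq'
    · rw [pow_succ']
      ring

end Pool.Agent.L0h11.FP
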