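import Mathlib

/-!
# Collisions of fat points: definitions and statements of the modules (project FP, helper11)

`R[X][X]` is the ring of polynomials in `y` with coefficients in `R[x]`.
-/

set_option autoImplicit false

namespace Pool.Agent.L0h11.FP

open Polynomial Finset

/-- The polynomials in `x` and `y` (elements of `R[x][y]`) of total degree less than `D`. -/
def V (R : Type) [CommRing R] (D : ℕ) : Submodule R R[X][X] where
  carrier := {f | ∀ j, f.coeff j ∈ degreeLT R (D - j)}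
  zero_mem' := fun j => by
    rw [coeff_zero]
    exact Submodule.zero_mem _
  add_mem' := fun {f g} hf hg j => by
    rw [coeff_add]
    exact Submodule.add_mem _ (hf j) (hg j)
  smul_mem' := fun a f hf j => by
    rw [coeff_smul]
    exact Submodule.smul_mem _ a (hf j)

theorem mem_V {R : Type} [CommRing R] {D : ℕ} {f : R[X][X]} :
    f ∈ V R D ↔ ∀ j, f.coeff j ∈ degreeLT R (D - j) := Iff.rfl

/-- the exponents `(i, j)` of the monomials `x ^ i y ^ j` of degree less than `D` -/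
abbrev Idx (D : ℕ) : Type := {p : Fin D × Fin D // (p.1 : ℕ) + p.2 < D}

/-- the conditions: `r (m - j)` conditions for every `j < m` -/
abbrev Cnd (r m : ℕ) : Type := Σ j : Fin m, Fin (r * (m - j))

/-- the matrix of the conditions in the basis of the monomials: the `l`-th Taylor coefficient at `a` of
the coefficient of `y ^ j` in `f (x, y + c (x))`, for `l < r (m - j)` -/
noncomputable def mat {R : Type} [CommRing R] (D r m : ℕ) (a : R) (c : R[X]) :
    Matrix (Cnd r m) (Idx D) R := fun q p =>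
  (taylor a (X ^ (p.1.1 : ℕ) * (((p.1.2 : ℕ).choose (q.1 : ℕ) : ℕ) : R[X]) *
    c ^ ((p.1.2 : ℕ) - q.1))).coeff q.2

/-- the polynomial with given coefficients -/
noncomputable def pol {R : Type} [CommRing R] (D : ℕ) (v : Idx D → R) : R[X][X] :=
  ∑ p : Idx D, C (C (v p) * X ^ (p.1.1 : ℕ)) * X ^ (p.1.2 : ℕ)

/-- the exponents of `f (x, x ^ e)` -/
def Ex (e D : ℕ) : Finset ℕ :=
  ((range e ×ˢ range D).filter fun p => p.1 + p.2 < D).image fun p => p.1 + e * p.2

/-- their number -/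
def aa (e D : ℕ) : ℕ := ∑ i ∈ range e, (D - i)

/-- IDL. (Induction on `m`: the set of `f` on the right is an additive group `D_m`, closed under
multiplication; `(X - C c) * D_m ⊆ D_(m+1)`, `C u * D_m ⊆ D_(m+1)`. Conversely write
`taylor c f = ∑ C (b_j) X ^ j`; translate by `X ↦ X - C c`.) -/
def St_IDL : Prop := ∀ (A : Type) [CommRing A] (c u : A) (m : ℕ) (f : A[X]),
  f ∈ (Ideal.span {X - C c, C u}) ^ m ↔ ∀ j < m, u ^ (m - j) ∣ (taylor c f).coeff j

/-- SPR. (Induction on the cardinality: if `a₀` is in the support of `g`, then `X g' - a₀ g` has smaller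
support and is divisible by `(X - 1) ^ (N - 1)`, hence zero, so `g` is a monomial; `g` vanishes at `1`
or `N = 0`.) -/
def St_SPR : Prop := ∀ (k : Type) [Field k] [CharZero k] (N : ℕ) (g : k[X]),
  (X - C 1) ^ N ∣ g → g.support.card ≤ N → g = 0

/-- RES. (`q = f /ₘ (X - C (X ^ e))`; the coefficients satisfy `f_0 = - x ^ e q_0`,
`f_(j+1) = q_j - x ^ e q_(j+1)`; bound the degree of `q_j` by induction on `j` from `0` upwards.) -/
def St_RES : Prop := ∀ (k : Type) [Field k] (e D : ℕ), 1 ≤ e → ∀ f ∈ V k D,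
  f.eval (X ^ e) = 0 → ∃ q ∈ V k (D - e), f = (X - C (X ^ e)) * q

/-- SUP. (`f (x, x ^ e)` is a sum of monomials `x ^ (i + e j)`, `i + j < D`; if `i ≥ e` replace `(i, j)`
by `(i - e, j + 1)`.) -/
def St_SUP : Prop := ∀ (k : Type) [Field k] (e D : ℕ), 1 ≤ e → ∀ f ∈ V k D,
  (f.eval (X ^ e)).support ⊆ Ex e D

/-- CRD. Cardinalities. (`aa e D` is the number of the pairs `i < e`, `i + j < D`.) -/
def St_CRD : Prop := (∀ e D, (Ex e D).card ≤ aa e D) ∧
  (∀ D, 2 * Fintype.card (Idx D) = D * (D + 1)) ∧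
  (∀ r m, 2 * Fintype.card (Cnd r m) = r * (m * (m + 1))) ∧
  (∀ e D, aa e D ≤ e * D) ∧ (∀ e D, 2 * e * D ≤ 2 * aa e D + e * (e - 1)) ∧
  (∀ e D, e ≤ D → 2 * aa e D + e * (e - 1) = 2 * e * D) ∧
  ∀ e D, e ≤ D → 2 * aa e D + (D - e) * (D - e + 1) = D * (D + 1)

/-- PM. (The coefficient of `y ^ j` in `taylor c (C b * X ^ n)` is `b * choose n j * c ^ (n - j)`; the
coefficients of `X ^ l` in `taylor a g` for `l < N` vanish iff `(X - a) ^ N` divides `g`.) -/
def St_PM : Prop := ∀ (R : Type) [CommRing R] (D r m : ℕ) (a : R) (c : R[X]),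
  (∀ (v : Idx D → R) (q : Cnd r m), (mat D r m a c).mulVec v q =
    (taylor a ((taylor c (pol D v)).coeff q.1)).coeff q.2) ∧
  (∀ v : Idx D → R, (mat D r m a c).mulVec v = 0 ↔
    ∀ j < m, (X - C a) ^ (r * (m - j)) ∣ (taylor c (pol D v)).coeff j) ∧
  (∀ v : Idx D → R, pol D v ∈ V R D) ∧
  (∀ f ∈ V R D, f = pol D fun p => (f.coeff (p.1.2 : ℕ)).coeff (p.1.1 : ℕ)) ∧
  (∀ v : Idx D → R, pol D v = 0 → v = 0) ∧
  (∀ (S : Type) [CommRing S] (φ : R →+* S),
    (mat D r m a c).map φ = mat D r m (φ a) (c.map φ))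

/-- OPN. (Let `B` be a left (right) inverse over `k` of the matrix for `a₀`, `c₀`; take for `P` the
determinant of `B * M` (of `M * B`), where `M = mat D r m (X 0) (∑ C (X (i+1)) * X ^ i)` over
`MvPolynomial (Fin (r+1)) k`.) -/
def St_OPN : Prop := ∀ (k : Type) [Field k] (D r m : ℕ) (a₀ : k) (c₀ : k[X]), c₀ ∈ degreeLT k r →
  (Function.Injective (mat D r m a₀ c₀).mulVec → ∃ P : MvPolynomial (Fin (r + 1)) k, P ≠ 0 ∧
    ∀ z : Fin (r + 1) → k, MvPolynomial.eval z P ≠ 0 →
      Function.Injective (mat D r m (z 0) (∑ i : Fin r, C (z i.succ) * X ^ (i : ℕ))).mulVec) ∧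
  (Function.Surjective (mat D r m a₀ c₀).mulVec → ∃ P : MvPolynomial (Fin (r + 1)) k, P ≠ 0 ∧
    ∀ z : Fin (r + 1) → k, MvPolynomial.eval z P ≠ 0 →
      Function.Surjective (mat D r m (z 0) (∑ i : Fin r, C (z i.succ) * X ^ (i : ℕ))).mulVec)

/-- KER. (If the matrix is injective over the fraction field `K` of `k[s]`, there is a left inverse
over `K`; clear denominators: `B * M = b` with `0 ≠ b ∈ k[s]`, choose `s₀` with `b (s₀) ≠ 0`. Otherwise
there is a nonzero `w` over `k[s]` with `M w = 0`; divide by the largest power of `s`.) -/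
def St_KER : Prop := ∀ (k : Type) [Field k] [Infinite k] (ι κ : Type) [Fintype ι] [Fintype κ]
  [DecidableEq ι] [DecidableEq κ] (M : Matrix κ ι k[X]),
  (∀ s : k, ¬ Function.Injective (M.map (eval s)).mulVec) →
    ∃ w : ι → k[X], M.mulVec w = 0 ∧ ∃ i, (w i).coeff 0 ≠ 0

/-- EXP. First order expansion in `s`, the variable of `k[X]`. (`(x ^ e + s x ^ M) ^ n =
x ^ (e n) + n s x ^ (e (n-1) + M) + s ^ 2 (..)`, insert in the entries of the matrix and take the
coefficients of `s ^ 0` and `s ^ 1` of `mulVec w = 0`; `(n - j) choose n j = (j + 1) choose n (j+1)`.) -/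
def St_EXP : Prop := ∀ (k : Type) [Field k] (D r m e M : ℕ) (w : Idx D → k[X]),
  (mat D r m (1 : k[X]) (X ^ e + C X * X ^ M)).mulVec w = 0 →
    (mat D r m (1 : k) (X ^ e)).mulVec (fun p => (w p).coeff 0) = 0 ∧
    ∀ q : Cnd r m, (mat D r m (1 : k) (X ^ e)).mulVec (fun p => (w p).coeff 1) q +
      (taylor 1 ((((q.1 : ℕ) + 1 : ℕ) : k[X]) * X ^ M *
        (taylor (X ^ e) (pol D fun p => (w p).coeff 0)).coeff ((q.1 : ℕ) + 1))).coeff (q.2 : ℕ) = 0

/-- SPC. (Induction on `m` with SPR, SUP, CRD, RES: the polynomial `f (x, x ^ e)` has at most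
`aa e D ≤ r m` monomials and is divisible by `(x - 1) ^ (r m)`, hence zero.) -/
def St_SPC : Prop := ∀ (k : Type) [Field k] [CharZero k] (e r m D : ℕ), 1 ≤ e →
  (∀ i < m, aa e (D - i * e) ≤ r * (m - i)) → ∀ f ∈ V k D,
    (∀ j < m, (X - C 1) ^ (r * (m - j)) ∣ (taylor (X ^ e) f).coeff j) →
      ∃ q ∈ V k (D - m * e), f = (X - C (X ^ e)) ^ m * q

/-- IND. (Choose for every `i < m` an injection `σ_i` of `Fin (r (m - i))` in the set of the pairs
`(a, b)`, `a < e`, `a + b < D - i e`, which has `aa e (D - i e)` elements. Consider the square matrix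
`mat * B`, where the column of `B` for `(i, l)` is given by the coefficients of
`(y - x ^ e) ^ i x ^ a y ^ b`, `(a, b) = σ_i l`. It is injective: if `f = ∑ (y - x ^ e) ^ i f_i` satisfies the
conditions, then `f_0 (x, x ^ e)` is divisible by `(x - 1) ^ (r m)` and has at most `r m` monomials, so it
is zero by SPR; the monomials are different, so `f_0 = 0`; divide by `y - x ^ e` and continue with
`m - 1`. Hence it is surjective.) -/
def St_IND : Prop := ∀ (k : Type) [Field k] [CharZero k] (e r m D : ℕ), 1 ≤ e →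
  (∀ i < m, r * (m - i) ≤ aa e (D - i * e)) →
    Function.Surjective (mat D r m (1 : k) (X ^ e)).mulVec

/-- DEF. (By SPC `F0 = (y - x ^ e) ^ m q0`. The conditions for `j < m - 1` give
`F1 = (y - x ^ e) ^ (m - 1) G` (by RES, SUP, SPR as in SPC), the condition for `j = m - 1` is that
`(x - 1) ^ r` divides `G (x, x ^ e) + m x ^ M q0 (x, x ^ e)`, which has at most
`card (Idx (D - (m - 1) e)) ≤ r` monomials, hence is zero by SPR; as `M` is large, `q0 (x, x ^ e) = 0`,
and `q0 = 0` as `D - m e ≤ e`.) -/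
def St_DEF : Prop := ∀ (k : Type) [Field k] [CharZero k] (e r m D M : ℕ), 1 ≤ e → 1 ≤ m →
  (∀ i < m, aa e (D - i * e) ≤ r * (m - i)) → m * e ≤ D → D ≤ m * e + e →
  (D - (m - 1) * e) * (D - (m - 1) * e + 1) ≤ 2 * r → e * D + D < M → ∀ F0 ∈ V k D, ∀ F1 ∈ V k D,
    (∀ j < m, (X - C 1) ^ (r * (m - j)) ∣ (taylor (X ^ e) F0).coeff j) →
    (∀ j < m, (X - C 1) ^ (r * (m - j)) ∣ (taylor (X ^ e) F1).coeff j +
      ((j + 1 : ℕ) : k[X]) * X ^ M * (taylor (X ^ e) F0).coeff (j + 1)) → F0 = 0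

end Pool.Agent.L0h11.FP
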