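import Pool.Agent.L0h11.FP.Main
import Pool.Agent.L0h98.FP.RES
import Pool.Agent.L0h98.FP.SUP
import Pool.Agent.L0h98.FP.IDL
import Pool.Agent.L0h78.FP.SPR
import Pool.Agent.L0h61.FP.CRD
import Pool.Agent.L0h36.FP.OPN
import Pool.Agent.L0h88.FP.KER
import Pool.Agent.H50.FP.EXP
import Pool.Agent.L0h24.FP.IND
import Pool.Agent.L0h55.FP.DEF
import Pool.Agent.L0h66.FP.PM
import Pool.Agent.L0h11.FP.SPC

/-!
# Collisions of fat points: assembly
-/

set_option autoImplicit false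

namespace Pool.Agent.L0h11.FP

open Polynomial

theorem mods : Mods where
  idl := Pool.Agent.L0h98.FP.IDL
  pm := Pool.Agent.L0h66.FP.pm
  opn := Pool.Agent.L0h36.FP.OPN Pool.Agent.L0h66.FP.pm
  crd := Pool.Agent.L0h61.FP.CRD
  spc := spc Pool.Agent.L0h78.FP.SPR Pool.Agent.L0h98.FP.RES Pool.Agent.L0h98.FP.SUP
    Pool.Agent.L0h61.FP.CRD
  ind := Pool.Agent.L0h24.FP.ind Pool.Agent.L0h66.FP.pm Pool.Agent.L0h78.FP.SPR
  defo := Pool.Agent.L0h55.FP.t_DEF Pool.Agent.L0h78.FP.SPR Pool.Agent.L0h98.FP.RES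
    Pool.Agent.L0h98.FP.SUP Pool.Agent.L0h61.FP.CRD
  ker := Pool.Agent.L0h88.FP.KER
  exp := Pool.Agent.H50.FP.EXP

variable {k : Type} [Field k] [CharZero k]

/-- the bound for `δ` -/
theorem delta_le {r δ : ℕ} (hr : 1 ≤ r) (hδ : (δ + 1) * (δ + 2) ≤ 2 * r) :
    δ + 1 ≤ 2 * Nat.sqrt r := by
  have h2 : r < (Nat.sqrt r + 1) * (Nat.sqrt r + 1) := Nat.lt_succ_sqrt r
  have h3 : 1 ≤ Nat.sqrt r := Nat.sqrt_pos.2 hr
  set e := Nat.sqrt r with he
  by_contra hcon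
  push Not at hcon
  have h4 : 2 * e ≤ δ := by omega
  have h5 : (2 * e + 1) * (2 * e + 2) ≤ (δ + 1) * (δ + 2) :=
    Nat.mul_le_mul (by omega) (by omega)
  nlinarith

theorem vanishing' {r m d δ : ℕ} (hr : 1 ≤ r) (hm : 1 ≤ m)
    (hδ : (δ + 1) * (δ + 2) ≤ 2 * r) (hd : d ≤ Nat.sqrt r * (m - 1) + δ) :
    General (k := k) r (fun a c => Module.finrank k (forms d r m a c) = 0) ∧
      (d + 2).choose 2 ≤ r * (m + 1).choose 2 :=
  vanishing mods (Nat.sqrt_pos.2 hr) (Nat.sqrt_le r) hm hδ (delta_le hr hδ) hd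

/-- perfect squares -/
theorem squares {e δ : ℕ} (he : 1 ≤ e) (hδ : (δ + 1) * (δ + 2) ≤ 2 * (e * e))
    (hδ' : δ + 1 ≤ 2 * e) (hδ'' : 3 * e ≤ 2 * δ + 5) (m d : ℕ) :
    General (k := k) (e * e) (fun a c => Module.finrank k (forms d (e * e) m a c) =
      (d + 2).choose 2 - e * e * (m + 1).choose 2) := by
  rcases Nat.eq_zero_or_pos m with rfl | hm
  · refine (general_indep mods ⟨X ^ e, mods.ind k e (e * e) 0 (d + 1) he
      fun i hi => absurd hi (Nat.not_lt_zero i)⟩).mono fun a c h1 => ?_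
    omega
  · by_cases hd : d ≤ e * (m - 1) + δ
    · obtain ⟨h1, h2⟩ := vanishing (k := k) mods he le_rfl hm hδ hδ' hd
      refine h1.mono fun a c h3 => ?_
      omega
    · obtain ⟨m, rfl⟩ := Nat.exists_eq_add_of_le' hm
      rw [Nat.add_sub_cancel] at hd
      obtain ⟨f, rfl⟩ := Nat.exists_eq_add_of_le' he
      push Not at hd
      have hm' : m + Nat.succ 0 = m + 1 := rfl
      rw [hm']
      refine (independence (k := k) (e := f + 1) (r := (f + 1) * (f + 1)) (m := m + 1) (d := d)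
        mods he ?_ ?_).mono fun a c h1 => ?_
      · rw [Nat.add_sub_cancel]
        nlinarith
      · rw [Nat.add_sub_cancel, Nat.add_sub_cancel]
        nlinarith
      · omega

end Pool.Agent.L0h11.FP
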