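import Pool.Agent.L0h11.FP.Stm

/-!
# Collisions of fat points: the schemes, general schemes, reduction to the matrices
-/

set_option autoImplicit false

namespace Pool.Agent.L0h11.FP

open Polynomial Finset

variable {k : Type} [Field k]

/-- The ideal in `k[x, y]` of the jet of length `r` of the curve `y = c (x)` at the point
`(a, c (a))`: it is generated by `y - c (x)` and `(x - a) ^ r`. -/
noncomputable def jet (r : ℕ) (a : k) (c : k[X]) : Ideal k[X][X] :=
  Ideal.span {X - C c, C ((X - C a) ^ r)}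

/-- The polynomials of degree at most `d` in the ideal of the scheme `Y`, the `m`-th power of the ideal
of the jet. -/
noncomputable def forms (d r m : ℕ) (a : k) (c : k[X]) : Submodule k k[X][X] :=
  V k (d + 1) ⊓ (jet r a c ^ m).restrictScalars k

/-- A property of the jet of length `r` of the curve `y = c (x)`, `c (x) = z 1 + z 2 x + .. + z r x ^ (r - 1)`,
at the point with `x = z 0`, holds for general `z`: for all `z` outside of the zero set of a nonzero
polynomial. -/
def General (r : ℕ) (p : k → k[X] → Prop) : Prop :=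
  ∃ P : MvPolynomial (Fin (r + 1)) k, P ≠ 0 ∧ ∀ z : Fin (r + 1) → k, MvPolynomial.eval z P ≠ 0 →
    p (z 0) (∑ i : Fin r, C (z i.succ) * X ^ (i : ℕ))

theorem General.mono {r : ℕ} {p q : k → k[X] → Prop} (h : General r p) (hpq : ∀ a c, p a c → q a c) :
    General r q := by
  obtain ⟨P, hP, h⟩ := h
  exact ⟨P, hP, fun z hz => hpq _ _ (h z hz)⟩

theorem mem_jet_pow (hIDL : St_IDL) (r m : ℕ) (a : k) (c : k[X]) (f : k[X][X]) :
    f ∈ jet r a c ^ m ↔ ∀ j < m, (X - C a) ^ (r * (m - j)) ∣ (taylor c f).coeff j := by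
  rw [jet, hIDL]
  simp only [pow_mul]

theorem jet_congr (r : ℕ) (a : k) (c c' : k[X]) (h : (X - C a) ^ r ∣ c - c') :
    jet r a c = jet r a c' := by
  obtain ⟨b, hb⟩ := h
  have key : ∀ c c' b : k[X], c - c' = (X - C a) ^ r * b → jet r a c ≤ jet r a c' := by
    intro c c' b hb
    rw [jet, Ideal.span_le]
    rintro x (rfl | rfl)
    · have h1 : (X - C c : k[X][X]) = (X - C c') - C b * C ((X - C a) ^ r) := by
        rw [← C_mul, mul_comm b, ← hb, C_sub]
        ring
      show (X - C c : k[X][X]) ∈ jet r a c'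
      rw [h1]
      refine Ideal.sub_mem _ (Ideal.subset_span (Or.inl rfl)) (Ideal.mul_mem_left _ _ ?_)
      exact Ideal.subset_span (Or.inr rfl)
    · exact Ideal.subset_span (Or.inr rfl)
  refine le_antisymm (key c c' b hb) (key c' c (-b) ?_)
  rw [mul_neg, ← hb]
  ring

theorem ker_iff (hIDL : St_IDL) (hPM : St_PM) (D r m : ℕ) (a : k) (c : k[X]) (v : Idx D → k) :
    (mat D r m a c).mulVec v = 0 ↔ pol D v ∈ jet r a c ^ m := by
  rw [mem_jet_pow hIDL]
  exact (hPM k D r m a c).2.1 v

/-- `pol` as a linear map -/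
noncomputable def polL (D : ℕ) : (Idx D → k) →ₗ[k] k[X][X] where
  toFun := pol D
  map_add' v w := by
    simp only [pol]
    rw [← Finset.sum_add_distrib]
    refine Finset.sum_congr rfl fun p _ => ?_
    rw [Pi.add_apply, C_add, add_mul, C_add, add_mul]
  map_smul' t v := by
    simp only [pol]
    rw [Finset.smul_sum]
    refine Finset.sum_congr rfl fun p _ => ?_
    rw [Pi.smul_apply, smul_eq_mul, C_mul, RingHom.id_apply]
    ext i j
    simp [mul_assoc]

theorem forms_eq (hIDL : St_IDL) (hPM : St_PM) (d r m : ℕ) (a : k) (c : k[X]) :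
    forms d r m a c = (LinearMap.ker (mat (d + 1) r m a c).mulVecLin).map (polL (d + 1)) := by
  ext f
  rw [Submodule.mem_map]
  constructor
  · rintro ⟨h1, h2⟩
    have h3 := (hPM k (d + 1) r m a c).2.2.2.1 f h1
    refine ⟨_, ?_, h3.symm⟩
    rw [LinearMap.mem_ker, Matrix.mulVecLin_apply, ker_iff hIDL hPM, ← h3]
    exact h2
  · rintro ⟨v, hv, rfl⟩
    rw [LinearMap.mem_ker, Matrix.mulVecLin_apply, ker_iff hIDL hPM] at hv
    exact ⟨(hPM k (d + 1) r m a c).2.2.1 v, hv⟩

theorem finrank_forms (hIDL : St_IDL) (hPM : St_PM) (d r m : ℕ) (a : k) (c : k[X]) :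
    Module.finrank k (forms d r m a c) =
      Module.finrank k (LinearMap.ker (mat (d + 1) r m a c).mulVecLin) := by
  rw [forms_eq hIDL hPM]
  have hinj : Function.Injective (polL (k := k) (d + 1)) := by
    rw [← LinearMap.ker_eq_bot, LinearMap.ker_eq_bot']
    exact fun v hv => (hPM k (d + 1) r m a c).2.2.2.2.1 v hv
  exact (LinearEquiv.finrank_eq (Submodule.equivMapOfInjective _ hinj _)).symm

theorem finrank_of_injective (hIDL : St_IDL) (hPM : St_PM) (d r m : ℕ) (a : k) (c : k[X])
    (h : Function.Injective (mat (d + 1) r m a c).mulVec) :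
    Module.finrank k (forms d r m a c) = 0 ∧
      Fintype.card (Idx (d + 1)) ≤ Fintype.card (Cnd r m) := by
  have h1 : LinearMap.ker (mat (d + 1) r m a c).mulVecLin = ⊥ := LinearMap.ker_eq_bot.2 h
  refine ⟨?_, ?_⟩
  · rw [finrank_forms hIDL hPM, h1, finrank_bot]
  · have h2 := LinearMap.finrank_le_finrank_of_injective (f := (mat (d + 1) r m a c).mulVecLin) h
    rwa [Module.finrank_fintype_fun_eq_card, Module.finrank_fintype_fun_eq_card] at h2

theorem finrank_of_surjective (hIDL : St_IDL) (hPM : St_PM) (d r m : ℕ) (a : k) (c : k[X])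
    (h : Function.Surjective (mat (d + 1) r m a c).mulVec) :
    Module.finrank k (forms d r m a c) + Fintype.card (Cnd r m) =
      Fintype.card (Idx (d + 1)) := by
  rw [finrank_forms hIDL hPM]
  have h1 := LinearMap.finrank_range_add_finrank_ker (mat (d + 1) r m a c).mulVecLin
  rw [Module.finrank_fintype_fun_eq_card, LinearMap.range_eq_top.2 h, finrank_top,
    Module.finrank_fintype_fun_eq_card] at h1
  omega

/-- the expected dimension -/
theorem expected (hCRD : St_CRD) (d r m : ℕ) :
    Fintype.card (Idx (d + 1)) = (d + 2).choose 2 ∧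
      Fintype.card (Cnd r m) = r * (m + 1).choose 2 := by
  have h1 := hCRD.2.1 (d + 1)
  have h2 := hCRD.2.2.1 r m
  have e1 : 2 * (d + 2).choose 2 = (d + 1) * (d + 1 + 1) := by
    have h3 := Nat.triangle_succ (d + 1)
    have h4 := Nat.choose_two_right (d + 2)
    have h5 : (d + 2) * (d + 2 - 1) / 2 * 2 = (d + 2) * (d + 2 - 1) :=
      Nat.div_mul_cancel (Nat.even_mul_pred_self (d + 2)).two_dvd
    rw [h4, mul_comm 2, h5, show d + 2 - 1 = d + 1 by omega]
    ring
  have e2 : 2 * (m + 1).choose 2 = m * (m + 1) := by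
    have h4 := Nat.choose_two_right (m + 1)
    have h5 : (m + 1) * (m + 1 - 1) / 2 * 2 = (m + 1) * (m + 1 - 1) :=
      Nat.div_mul_cancel (Nat.even_mul_pred_self (m + 1)).two_dvd
    rw [h4, mul_comm 2, h5, show m + 1 - 1 = m by omega]
    ring
  refine ⟨by omega, ?_⟩
  have h6 : 2 * (r * (m + 1).choose 2) = r * (m * (m + 1)) := by
    rw [← e2]
    ring
  omega

/-- reduction modulo `(x - a) ^ r` -/
theorem exists_small (r : ℕ) (a : k) (c : k[X]) :
    ∃ c' ∈ degreeLT k r, jet r a c' = jet r a c := by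
  have hm : ((X - C a) ^ r : k[X]).Monic := (monic_X_sub_C a).pow r
  refine ⟨c %ₘ (X - C a) ^ r, ?_, ?_⟩
  · rw [mem_degreeLT]
    refine (degree_modByMonic_lt c hm).trans_le ?_
    rw [degree_pow, degree_X_sub_C, nsmul_eq_mul, mul_one]
  · refine jet_congr r a _ _ ?_
    have h := modByMonic_add_div c ((X - C a) ^ r)
    refine ⟨-(c /ₘ (X - C a) ^ r), ?_⟩
    rw [mul_neg, ← sub_eq_zero]
    linear_combination h

theorem general_injective (hIDL : St_IDL) (hPM : St_PM) (hOPN : St_OPN) (d r m : ℕ) (a : k)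
    (c : k[X]) (h : Function.Injective (mat (d + 1) r m a c).mulVec) :
    General r fun (a : k) (c : k[X]) => Function.Injective (mat (d + 1) r m a c).mulVec := by
  obtain ⟨c', hc', hj⟩ := exists_small r a c
  refine (hOPN k (d + 1) r m a c' hc').1 ?_
  have h1 : LinearMap.ker (mat (d + 1) r m a c').mulVecLin = ⊥ := by
    rw [LinearMap.ker_eq_bot']
    intro v hv
    rw [Matrix.mulVecLin_apply, ker_iff hIDL hPM, hj, ← ker_iff hIDL hPM] at hv
    exact h (by rw [hv, Matrix.mulVec_zero])
  exact LinearMap.ker_eq_bot.1 h1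

theorem general_surjective (hIDL : St_IDL) (hPM : St_PM) (hOPN : St_OPN) (d r m : ℕ) (a : k)
    (c : k[X]) (h : Function.Surjective (mat (d + 1) r m a c).mulVec) :
    General r fun (a : k) (c : k[X]) => Function.Surjective (mat (d + 1) r m a c).mulVec := by
  obtain ⟨c', hc', hj⟩ := exists_small r a c
  refine (hOPN k (d + 1) r m a c' hc').2 ?_
  have h1 : LinearMap.ker (mat (d + 1) r m a c').mulVecLin =
      LinearMap.ker (mat (d + 1) r m a c).mulVecLin := by
    ext v
    rw [LinearMap.mem_ker, LinearMap.mem_ker, Matrix.mulVecLin_apply, Matrix.mulVecLin_apply,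
      ker_iff hIDL hPM, hj, ← ker_iff hIDL hPM]
  have h2 := LinearMap.finrank_range_add_finrank_ker (mat (d + 1) r m a c').mulVecLin
  have h3 := LinearMap.finrank_range_add_finrank_ker (mat (d + 1) r m a c).mulVecLin
  rw [LinearMap.range_eq_top.2 h, finrank_top] at h3
  rw [h1] at h2
  have h4 : Module.finrank k (LinearMap.range (mat (d + 1) r m a c').mulVecLin) =
      Module.finrank k (Cnd r m → k) := by omega
  exact LinearMap.range_eq_top.1 (Submodule.eq_top_of_finrank_eq h4)

end Pool.Agent.L0h11.FP
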