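import Pool.Agent.L0h11.FP.Fin

/-!
# Collisions of fat points: maximal rank
-/

set_option autoImplicit false

namespace Pool.Agent.L0h11.FP

open Polynomial Finset

variable {k : Type} [Field k] [CharZero k]

/-- the case without deformation -/
theorem special_injective (hPM : St_PM) (hSPC : St_SPC) {e r m D : ℕ} (he : 1 ≤ e)
    (h1 : ∀ i < m, aa e (D - i * e) ≤ r * (m - i)) (hD : D ≤ m * e) :
    Function.Injective (mat D r m (1 : k) (X ^ e)).mulVec := by
  have h2 : LinearMap.ker (mat D r m (1 : k) (X ^ e)).mulVecLin = ⊥ := by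
    rw [LinearMap.ker_eq_bot']
    intro v hv
    rw [Matrix.mulVecLin_apply] at hv
    obtain ⟨q, hq, hf⟩ := hSPC k e r m D he h1 (pol D v) ((hPM k D r m 1 (X ^ e)).2.2.1 v)
      (((hPM k D r m 1 (X ^ e)).2.1 v).1 hv)
    have hq0 : q = 0 := by
      ext1 j
      have h3 := hq j
      rw [Nat.sub_eq_zero_of_le hD, Nat.zero_sub, mem_degreeLT] at h3
      rw [coeff_zero]
      rw [← degree_eq_bot]
      exact Nat.WithBot.lt_zero_iff.1 h3
    rw [hq0, mul_zero] at hf
    exact (hPM k D r m 1 (X ^ e)).2.2.2.2.1 v hf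
  exact LinearMap.ker_eq_bot.1 h2

theorem dvd_of_taylor (a : k) (g : k[X]) (N : ℕ) (h : ∀ l < N, (taylor a g).coeff l = 0) :
    (X - C a) ^ N ∣ g := by
  rw [X_sub_C_pow_dvd_iff, X_pow_dvd_iff, ← taylor_apply]
  exact h

/-- the case with first order deformation -/
theorem exists_injective (hPM : St_PM) (hDEF : St_DEF) (hKER : St_KER) (hEXP : St_EXP)
    {e r m D : ℕ} (he : 1 ≤ e) (hm : 1 ≤ m) (h1 : ∀ i < m, aa e (D - i * e) ≤ r * (m - i))
    (hD : m * e ≤ D) (hD' : D ≤ m * e + e)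
    (h2 : (D - (m - 1) * e) * (D - (m - 1) * e + 1) ≤ 2 * r) :
    ∃ c : k[X], Function.Injective (mat D r m (1 : k) c).mulVec := by
  classical
  by_contra hcon
  push Not at hcon
  set M := e * D + D + 1 with hM
  obtain ⟨w, hw, i, hi⟩ := hKER k (Idx D) (Cnd r m) (mat D r m (1 : k[X]) (X ^ e + C X * X ^ M))
    (fun s => by
      have h3 := (hPM k[X] D r m (1 : k[X]) (X ^ e + C X * X ^ M)).2.2.2.2.2 k (evalRingHom s)
      rw [coe_evalRingHom] at h3
      rw [h3]
      rw [eval_one]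
      exact hcon _)
  obtain ⟨h3, h4⟩ := hEXP k D r m e M w hw
  have h5 := hDEF k e r m D M he hm h1 hD hD' h2 (by omega) (pol D fun p => (w p).coeff 0)
    ((hPM k D r m 1 (X ^ e)).2.2.1 _) (pol D fun p => (w p).coeff 1)
    ((hPM k D r m 1 (X ^ e)).2.2.1 _) (((hPM k D r m 1 (X ^ e)).2.1 _).1 h3) (by
      intro j hj
      refine dvd_of_taylor _ _ _ fun l hl => ?_
      have h6 := h4 ⟨⟨j, hj⟩, ⟨l, hl⟩⟩
      rw [(hPM k D r m 1 (X ^ e)).1] at h6
      rw [map_add, coeff_add]
      exact h6)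
  have h6 := (hPM k D r m 1 (X ^ e)).2.2.2.2.1 _ h5
  exact hi (congrFun h6 i)

/-- the statements of the modules -/
structure Mods : Prop where
  idl : St_IDL
  pm : St_PM
  opn : St_OPN
  crd : St_CRD
  spc : St_SPC
  ind : St_IND
  defo : St_DEF
  ker : St_KER
  exp : St_EXP

/-- general schemes: no forms -/
theorem general_zero (H : Mods) {r m d : ℕ} (h : ∃ c : k[X], Function.Injective (mat (d + 1) r m (1 : k) c).mulVec) :
    General (k := k) r (fun a c => Module.finrank k (forms d r m a c) = 0) ∧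
      (d + 2).choose 2 ≤ r * (m + 1).choose 2 := by
  obtain ⟨c, hc⟩ := h
  refine ⟨(general_injective H.idl H.pm H.opn d r m 1 c hc).mono fun a c h => ?_, ?_⟩
  · exact (finrank_of_injective H.idl H.pm d r m a c h).1
  · have := (finrank_of_injective H.idl H.pm d r m 1 c hc).2
    rwa [(expected H.crd d r m).1, (expected H.crd d r m).2] at this

theorem general_indep (H : Mods) {r m d : ℕ} (h : ∃ c : k[X], Function.Surjective (mat (d + 1) r m (1 : k) c).mulVec) :
    General (k := k) r (fun a c =>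
      Module.finrank k (forms d r m a c) + r * (m + 1).choose 2 = (d + 2).choose 2) := by
  obtain ⟨c, hc⟩ := h
  refine (general_surjective H.idl H.pm H.opn d r m 1 c hc).mono fun a c h => ?_
  have := finrank_of_surjective H.idl H.pm d r m a c h
  rwa [(expected H.crd d r m).1, (expected H.crd d r m).2] at this

theorem aa_mono (e : ℕ) {D D' : ℕ} (h : D ≤ D') : aa e D ≤ aa e D' :=
  Finset.sum_le_sum fun i _ => Nat.sub_le_sub_right h i

/-- **No forms of small degree.** -/
theorem vanishing (H : Mods) {e r m d δ : ℕ} (he : 1 ≤ e) (hr : e * e ≤ r) (hm : 1 ≤ m)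
    (hδ : (δ + 1) * (δ + 2) ≤ 2 * r) (hδ' : δ + 1 ≤ 2 * e) (hd : d ≤ e * (m - 1) + δ) :
    General (k := k) r (fun a c => Module.finrank k (forms d r m a c) = 0) ∧
      (d + 2).choose 2 ≤ r * (m + 1).choose 2 := by
  obtain ⟨m, rfl⟩ := Nat.exists_eq_add_of_le' hm
  rw [Nat.add_sub_cancel] at hd
  refine general_zero H ?_
  by_cases hD : d + 1 ≤ (m + 1) * e
  · refine ⟨X ^ e, special_injective H.pm H.spc he (fun i hi => ?_) hD⟩
    calc aa e (d + 1 - i * e) ≤ e * (d + 1 - i * e) := H.crd.2.2.2.1 _ _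
      _ ≤ e * (e * (m + 1 - i)) := by
          refine Nat.mul_le_mul_left _ ?_
          obtain ⟨t, ht⟩ := Nat.exists_eq_add_of_le hi.le
          rw [ht, Nat.add_sub_cancel_left]
          rw [ht, add_mul] at hD
          have : t * e = e * t := mul_comm _ _
          omega
      _ = (e * e) * (m + 1 - i) := by ring
      _ ≤ r * (m + 1 - i) := Nat.mul_le_mul_right _ hr
  · refine exists_injective H.pm H.defo H.ker H.exp he hm (fun i hi => ?_) (by omega) ?_ ?_
    · obtain ⟨t, ht⟩ := Nat.exists_eq_add_of_le hi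
      have e1 : m + 1 - i = t + 1 := by omega
      rw [e1]
      have e2 : d + 1 - i * e ≤ e * t + (δ + 1) := by
        have e3 : m = i + t := by omega
        rw [e3, mul_add] at hd
        have : i * e = e * i := mul_comm _ _
        omega
      refine (aa_mono e e2).trans ?_
      by_cases e4 : e ≤ e * t + (δ + 1)
      · have e5 := H.crd.2.2.2.2.2.1 e (e * t + (δ + 1)) e4
        have e6 : e * e * (t + 1) ≤ r * (t + 1) := Nat.mul_le_mul_right _ hr
        -- 2 aa = 2 e (e t + δ + 1) - e (e - 1)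
        obtain ⟨f, rfl⟩ := Nat.exists_eq_add_of_le' he
        rw [Nat.add_sub_cancel] at e5
        have e7 : (0 : ℤ) ≤ ((δ : ℤ) + 1 - (f + 1)) * ((δ : ℤ) + 1 - (f + 1) + 1) := by
          rcases le_or_gt 0 ((δ : ℤ) + 1 - (f + 1)) with h | h
          · positivity
          · exact mul_nonneg_of_nonpos_of_nonpos h.le (by omega)
        have e8 : ((f : ℤ) + 1) * (f + 1) ≤ r := by exact_mod_cast hr
        have e9 : ((δ : ℤ) + 1) * (δ + 2) ≤ 2 * r := by exact_mod_cast hδ
        have e10 : 2 * (aa (f + 1) ((f + 1) * t + (δ + 1)) : ℤ) + (f + 1) * f =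
            2 * (f + 1) * ((f + 1) * t + (δ + 1)) := by exact_mod_cast e5
        have e11 : ((f : ℤ) + 1) * (f + 1) * t ≤ r * t := by
          exact mul_le_mul_of_nonneg_right e8 (by positivity)
        have : (aa (f + 1) ((f + 1) * t + (δ + 1)) : ℤ) ≤ r * (t + 1) := by nlinarith
        exact_mod_cast this
      · have e5 := H.crd.2.2.2.1 e (e * t + (δ + 1))
        have e6 : e * (e * t + (δ + 1)) ≤ e * e := Nat.mul_le_mul_left _ (by omega)
        have e7 : r ≤ r * (t + 1) := Nat.le_mul_of_pos_right _ (Nat.succ_pos t)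
        omega
    · have : (m + 1) * e = e * m + e := by ring
      omega
    · rw [Nat.add_sub_cancel]
      have e2 : d + 1 - m * e ≤ δ + 1 := by
        have : m * e = e * m := mul_comm _ _
        omega
      exact (Nat.mul_le_mul e2 (Nat.succ_le_succ e2)).trans hδ

/-- **Independent conditions.** -/
theorem independence (H : Mods) {e r m d : ℕ} (he : 1 ≤ e) 
    (h1 : 2 * (r * m) + e * (e - 1) ≤ 2 * e * (d + 1))
    (h2 : 2 * (e * e) * (m - 1) + 2 * r + e * (e - 1) ≤ 2 * e * (d + 1)) :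
    General (k := k) r (fun a c =>
      Module.finrank k (forms d r m a c) + r * (m + 1).choose 2 = (d + 2).choose 2) := by
  refine general_indep H ⟨X ^ e, H.ind k e r m (d + 1) he fun i hi => ?_⟩
  have h3 := H.crd.2.2.2.2.1 e (d + 1 - i * e)
  obtain ⟨t, ht⟩ := Nat.exists_eq_add_of_le hi
  have e1 : m - i = t + 1 := by omega
  have e0 : m - 1 = i + t := by omega
  rw [e1]
  rw [e0] at h2
  obtain ⟨f, rfl⟩ := Nat.exists_eq_add_of_le' he
  rw [Nat.add_sub_cancel] at h1 h2 h3
  have h4 : ((d + 1 : ℕ) : ℤ) - (i * (f + 1) : ℕ) ≤ ((d + 1 - i * (f + 1) : ℕ) : ℤ) := by omega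
  have h5 : 2 * ((f : ℤ) + 1) * ((d + 1 - i * (f + 1) : ℕ) : ℤ) ≤
      2 * (aa (f + 1) (d + 1 - i * (f + 1)) : ℤ) + (f + 1) * f := by exact_mod_cast h3
  have h6 : 2 * ((f : ℤ) + 1) * (((d + 1 : ℕ) : ℤ) - (i * (f + 1) : ℕ)) ≤
      2 * ((f : ℤ) + 1) * ((d + 1 - i * (f + 1) : ℕ) : ℤ) :=
    mul_le_mul_of_nonneg_left h4 (by positivity)
  have h1' : 2 * ((r : ℤ) * m) + (f + 1) * f ≤ 2 * (f + 1) * (d + 1) := by exact_mod_cast h1
  have h2' : 2 * (((f : ℤ) + 1) * (f + 1)) * (i + t) + 2 * r + (f + 1) * f ≤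
      2 * (f + 1) * (d + 1) := by exact_mod_cast h2
  have hm : (m : ℤ) = i + t + 1 := by omega
  rw [hm] at h1'
  push_cast at h6
  have : (r : ℤ) * (t + 1) ≤ (aa (f + 1) (d + 1 - i * (f + 1)) : ℤ) := by
    rcases le_total (((f : ℤ) + 1) * (f + 1)) r with h | h
    · have h7 : ((f : ℤ) + 1) * (f + 1) * i ≤ r * i := mul_le_mul_of_nonneg_right h (by positivity)
      nlinarith
    · have h7 : (r : ℤ) * t ≤ ((f : ℤ) + 1) * (f + 1) * t := mul_le_mul_of_nonneg_right h (by positivity)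
      nlinarith
  exact_mod_cast this

end Pool.Agent.L0h11.FP
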